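import Pool.Agent.Run7.h971.AQ.R

/-!
# Fujita's very ampleness conjecture for étale quotients by abelian groups of linear maps

`Y ⊂ P^N` is given by a homogeneous ideal `I`, and a finite COMMUTATIVE group `G` acts linearly on
`ℂ^(N+1)`, preserving `I`; the group `G/S`, `S` the subgroup of the elements acting by scalars, acts
freely on `Y`. For example `G/S` can be any finite cyclic group of projective transformations. Let
`n = dim Y`, `ω_Y = O(κ)`, and let `Y` be a complete intersection of any codimension, or arithmetically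
Cohen-Macaulay. The line bundles on `X = Y/G` whose pullback to `Y` is `O(k)` are given by the
characters of `G` which are `c ^ k` on the elements acting by the scalar `c`; if `Y` is a smooth complete
intersection and `n ≥ 3` then these are all line bundles on `X`. If `A_1, ..., A_m` are line bundles on
`X` with the pullbacks `O(k_1), ..., O(k_m)` then the sections of `K_X + A_1 + ... + A_m` are the forms
of degree `e = κ + k_1 + ... + k_m` on the cone over `Y` on which `G` acts by a certain character `χ`,
which is `c ^ e` on the elements acting by the scalar `c`.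

Theorem. Let `b ≥ 1`, and let `Y` be cut out as a set by the forms of degree `≤ b` in `I` (for a complete
intersection of forms of degrees `d_j` one can take `b = max d_j`; `b = κ + n + 2` is always possible).
Let `k_i ≥ k` for all `i` and `m k ≥ n + 1 + b`. Then `K_X + A_1 + ... + A_m` is very ample: its sections
have no common zero, separate points and separate tangent vectors. There is NO condition on the order
of the group, and none on `κ` apart from the choice of `b`. So

* the conjecture (`m = n + 2`) holds for all `X = Y/G` and all `A_i` with `k_i ≥ k` if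
  `(n + 2) k ≥ n + 1 + b`; for `b ≤ n + 3` this is the case for all `k ≥ 2`;
* for every `X = Y/G` and all ample `A_i` with pullbacks `O(k_i)` the bundle `K_X + A_1 + ... + A_m` is
  very ample for `m ≥ n + 1 + b`, and for quotients of intersections of quadrics for `m ≥ n + 3`. For
  example on a quotient of a smooth intersection of four quadrics in `P^7` (a Calabi-Yau threefold) by
  a commutative group, which can have the order 16, `m A` is very ample for all ample `A`, `m ≥ 6`.

For `m ≥ n + 2` the starting results `SmallDiagonalQuotients` and `FiniteQuotients` need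
`|G/S| ≤ e` or a hypersurface, and `AbelianCovers` is about abelian covers of `P^n`. For
`k ≥ κ + n + 1` the line bundles `A_i` are globally generated themselves (by the first step of the
proof), and then the conjecture for them is well known (`K_X + (n + 1) B + A` is very ample for `A`
ample, `B` ample and globally generated); the theorem is about the smaller `k`.

The proof. Let `ρ = κ + n + 1`, so `e ≥ ρ + b`. By the lemma `Sit.exists_monomial` of the starting
library all characters occur in all degrees `≥ ρ` among the monomials which do not vanish at a given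
point of `Y` (in coordinates in which `G` is diagonal). Let `y`, `y'` be points of `Y` with the same
support such that the forms `(e, χ)` do not separate them, and let `T_i = y'_i / y_i`. Then the
monomials of degree `e` with the character `χ` have the same value at `T`. Let `w` be a point of `Y`
of minimal support inside the support of `y`.

1. `T w` is in `Y`: let `p` be a form of degree `t ≤ b` in `I`. There are monomials of degree
   `e - t ≥ ρ` with all characters which do not vanish at `w`, hence the value at `T` of a monomial of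
   degree `t` with support in that of `w` depends only on its character, and `p (T w)` is a linear
   combination of the values at `w` of the isotypic components of `p`, which vanish on `Y`.
2. The functionals `F ↦ F_χ (T w)` and `F ↦ F_χ (w)` on the forms of degree `e` are proportional. By
   the minimality of `w` the ideal `(I, x_i : w_i = 0)` becomes irrelevant if a variable `x_0` with
   `w_0 ≠ 0` is added, so that modulo this ideal every form of degree `> ρ` is divisible by `x_0`.
   Hence the functionals with the character `χ α_0 ^ j` are proportional in the degrees `e + j` too.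
3. In large degrees the sections of `(e + j, χ α_0 ^ j)` separate the orbits. So `T w = s g w` with a
   scalar `s` and an element `g` of `G`.
4. The monomials `x_i u`, `u` a monomial of degree `e - 1` with support in that of `w`, show that
   `T_i = s g_i` for all `i` in the support of `y`. So `y' = s g y`.

For tangent vectors `u = (ξ_i y_i)` this is applied to the one-parameter group `T_i = exp (z ξ_i)`: so
`exp (|G| z (ξ_i - ξ_j)) = 1` for all `z`, and `ξ_i = ξ_j`. If the supports are different, a monomial
divisible by a suitable variable is used.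
-/

set_option autoImplicit false

namespace Pool.Agent.Results.MP_e09b14_ag.AbelianQuotients

open MvPolynomial

/-- A homogeneous ideal `I` in `ℂ[x_0, …, x_N]` and a linear action `ρ` of the commutative group `G`
on `ℂ^(N+1)`. The ideal `I` is stable under `G`, and an element which fixes a line in the zero set of
`I` acts by a scalar. -/
structure AbelianCover (G : Type) [CommGroup G] (N : ℕ) where
  I : Ideal (MvPolynomial (Fin (N + 1)) ℂ)
  homogeneous : ∀ p ∈ I, ∀ n, homogeneousComponent n p ∈ I
  ρ : Representation ℂ G (Fin (N + 1) → ℂ)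
  stable : ∀ (g : G), ∀ p ∈ I, bind₁ (fun i => ∑ j, C (ρ g (Pi.single j 1) i) * X j) p ∈ I
  free : ∀ v : Fin (N + 1) → ℂ, v ≠ 0 → (∀ p ∈ I, eval v p = 0) → ∀ (g : G) (μ : ℂ),
    ρ g v = μ • v → ∃ c : ℂ, ∀ x, ρ g x = c • x

/-- the linear form with coefficients `a` -/
noncomputable def linForm {N : ℕ} (a : Fin (N + 1) → ℂ) : MvPolynomial (Fin (N + 1)) ℂ :=
  ∑ i, C (a i) * X i

/-- `I` is generated by `c = N - n` forms of degrees `d j ≥ 1`, and `κ = ∑ d j - (N + 1)`. -/
def CompleteIntersection {N : ℕ} (I : Ideal (MvPolynomial (Fin (N + 1)) ℂ)) (n : ℕ) (κ : ℤ) :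
    Prop :=
  ∃ (c : ℕ) (f : Fin c → MvPolynomial (Fin (N + 1)) ℂ) (d : Fin c → ℕ),
    (∀ j, (f j).IsHomogeneous (d j) ∧ 0 < d j) ∧ I = Ideal.span (Set.range f) ∧
    N = n + c ∧ κ = ∑ j, (d j : ℤ) - (N + 1)

/-- There are `n + 1` linear forms which are a regular sequence modulo `I`, and modulo `I` and these
linear forms there are no nonzero forms of degree `> κ + n + 1`. For the ideal of an arithmetically
Cohen-Macaulay variety of dimension `n` this says that the `a`-invariant is at most `κ`. -/
def CohenMacaulay {N : ℕ} (I : Ideal (MvPolynomial (Fin (N + 1)) ℂ)) (n : ℕ) (κ : ℤ) : Prop :=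
  ∃ a : Fin (n + 1) → Fin (N + 1) → ℂ,
    (∀ i p, linForm (a i) * p ∈ I ⊔ Ideal.span ((fun j => linForm (a j)) '' {j | j < i}) →
      p ∈ I ⊔ Ideal.span ((fun j => linForm (a j)) '' {j | j < i})) ∧
    ∀ t : ℕ, κ + n + 1 < t → ∀ p : MvPolynomial (Fin (N + 1)) ℂ, p.IsHomogeneous t →
      p ∈ I ⊔ Ideal.span (Set.range fun j => linForm (a j))

/-- The zero set of `I` is cut out by the forms of degree at most `b` in `I`. -/
def CutOut {N : ℕ} (I : Ideal (MvPolynomial (Fin (N + 1)) ℂ)) (b : ℕ) : Prop :=
  ∀ v : Fin (N + 1) → ℂ, (∀ p ∈ I, ∀ t ≤ b, p.IsHomogeneous t → eval v p = 0) →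
    ∀ p ∈ I, eval v p = 0

/-- The forms of degree `e` on which `G` acts by the character `χ`: the sections of the line bundle
on `X = Y/G` given by `e` and `χ`. -/
def Section {G : Type} [CommGroup G] {N : ℕ} (D : AbelianCover G N) (e : ℕ) (χ : G →* ℂˣ)
    (F : MvPolynomial (Fin (N + 1)) ℂ) : Prop :=
  F.IsHomogeneous e ∧
    ∀ (g : G) (x : Fin (N + 1) → ℂ), eval (D.ρ g x) F = χ g * eval x F

open Pool.Agent.TH144.MB in
theorem reg_ofFn {N : ℕ} (s : ℕ) : ∀ (a : Fin s → Fin (N + 1) → ℂ)
    (I : Ideal (MvPolynomial (Fin (N + 1)) ℂ)),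
    (∀ i p, linForm (a i) * p ∈ I ⊔ Ideal.span ((fun j => linForm (a j)) '' {j | j < i}) →
      p ∈ I ⊔ Ideal.span ((fun j => linForm (a j)) '' {j | j < i})) →
    Reg I ((List.ofFn a).map lin) := by
  induction s with
  | zero => intro a I _; simp [Reg]
  | succ s ih =>
    intro a I h
    rw [List.ofFn_succ, List.map_cons]
    refine ⟨?_, ih _ _ ?_⟩
    · have h0 := h 0
      have h1 : {j : Fin (s + 1) | j < 0} = ∅ := by
        ext j
        simp
      rw [h1, Set.image_empty, Ideal.span_empty, sup_bot_eq] at h0
      exact h0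
    · intro i p
      have h0 := h i.succ p
      have h1 : {j : Fin (s + 1) | j < i.succ} = {0} ∪ Fin.succ '' {j | j < i} := by
        ext j
        refine Fin.cases ?_ (fun j => ?_) j
        · simp
        · simp [Fin.succ_ne_zero]
      have h2 : I ⊔ Ideal.span ((fun j => linForm (a j)) '' {j | j < i.succ})
          = I ⊔ Ideal.span {lin (a 0)}
            ⊔ Ideal.span ((fun j => linForm (a (Fin.succ j))) '' {j | j < i}) := by
        rw [h1, Set.image_union, Set.image_singleton, Ideal.span_union, ← sup_assoc,
          Set.image_image]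
        rfl
      rw [h2] at h0
      exact h0

open Pool.Agent.TH144.MB in
theorem le_ext_ofFn {N : ℕ} (s : ℕ) (a : Fin s → Fin (N + 1) → ℂ)
    (I : Ideal (MvPolynomial (Fin (N + 1)) ℂ)) :
    I ⊔ Ideal.span (Set.range fun j => linForm (a j)) ≤ ext I ((List.ofFn a).map lin) := by
  have h4 : ∀ (L : List (MvPolynomial (Fin (N + 1)) ℂ))
      (I : Ideal (MvPolynomial (Fin (N + 1)) ℂ)), ∀ f ∈ L, f ∈ ext I L := by
    intro L
    induction L with
    | nil => intro I f hf; simp at hf
    | cons g L ih =>
      intro I f hf
      rw [ext_cons]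
      rcases List.mem_cons.1 hf with rfl | hf
      · exact Ideal.mem_sup_right (Ideal.mem_span_singleton_self f)
      · exact Ideal.mem_sup_left (ih I f hf)
  refine sup_le (le_ext _ _) ?_
  rw [Ideal.span_le]
  rintro _ ⟨j, rfl⟩
  refine h4 _ _ _ (List.mem_map.2 ⟨a j, ?_, rfl⟩)
  rw [List.mem_ofFn]
  exact ⟨j, rfl⟩

/-- Let `b ≥ 1`, let the zero set of `I` be cut out by the forms of degree `≤ b` in `I`, or let
`b ≥ κ + n + 2`. Let `m k ≥ n + 1 + b` and `e ≥ κ + m k`, and let `χ` be a character which is `c ^ e` on
the elements acting by the scalar `c`. Then the forms of degree `e` with the character `χ` have no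
common zero on `Y`, separate the points of `Y` modulo `G`, and separate tangent vectors. -/
theorem result {G : Type} [CommGroup G] [Finite G] {N : ℕ} (D : AbelianCover G N) (n : ℕ) (κ : ℤ)
    (hY : CompleteIntersection D.I n κ ∨ CohenMacaulay D.I n κ)
    (b : ℕ) (hb : 0 < b) (hcut : CutOut D.I b ∨ κ + n + 2 ≤ b)
    (k m e : ℕ) (hmk : n + 1 + b ≤ m * k) (he : κ + m * k ≤ (e : ℤ))
    (χ : G →* ℂˣ) (hχ : ∀ (g : G) (c : ℂ), (∀ x, D.ρ g x = c • x) → (χ g : ℂ) = c ^ e) :
    -- no base points
    (∀ y : Fin (N + 1) → ℂ, y ≠ 0 → (∀ p ∈ D.I, eval y p = 0) →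
      ∃ F, Section D e χ F ∧ eval y F ≠ 0) ∧
    -- points are separated
    (∀ y z : Fin (N + 1) → ℂ, y ≠ 0 → z ≠ 0 → (∀ p ∈ D.I, eval y p = 0) →
      (∀ p ∈ D.I, eval z p = 0) → (¬ ∃ (g : G) (c : ℂ), z = c • D.ρ g y) →
      ∃ F, Section D e χ F ∧ eval y F = 0 ∧ eval z F ≠ 0) ∧
    -- tangent vectors are separated
    (∀ y u : Fin (N + 1) → ℂ, y ≠ 0 → (∀ p ∈ D.I, eval y p = 0) →
      (∀ p ∈ D.I, ∑ i, eval y (pderiv i p) * u i = 0) → (¬ ∃ c : ℂ, u = c • y) →
      ∃ F, Section D e χ F ∧ eval y F = 0 ∧ ∑ i, eval y (pderiv i F) * u i ≠ 0) := by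
  have hmk' : (n : ℤ) + 1 + b ≤ m * k := by exact_mod_cast hmk
  have he' : κ + n + 1 + b ≤ (e : ℤ) := by linarith
  have key : ∀ y : Fin (N + 1) → ℂ, (∀ p ∈ D.I, eval y p = 0) →
      ∃ r : ℕ, Pool.Agent.TH144.MB.TopBound D.I r ∧ (r : ℤ) = κ + n + 1 := by
    intro y hy
    rcases hY with ⟨c, f, d, hfd, hI, hN, hκ⟩ | ⟨a, ha, hb⟩
    · refine ⟨∑ j, (d j - 1), ?_, ?_⟩
      · rw [hI]
        exact Pool.Agent.TH144.MB.topBound_forms f d (fun j => (hfd j).1) fun j => (hfd j).2
      · have h1 : ((∑ j, (d j - 1) : ℕ) : ℤ) = ∑ j, (d j : ℤ) - c := by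
          rw [Nat.cast_sum]
          have h2 : ∀ j, ((d j - 1 : ℕ) : ℤ) = (d j : ℤ) - 1 := fun j => by
            have := (hfd j).2
            omega
          simp only [h2]
          rw [Finset.sum_sub_distrib]
          simp
        have h3 : (N : ℤ) = n + c := by exact_mod_cast hN
        rw [h1, hκ, h3]
        ring
    · rcases lt_or_ge (κ + n + 1) 0 with h0 | h0
      · exfalso
        have h1 := hb 0 (by simpa using h0) 1 (isHomogeneous_one _ _)
        have h2 : D.I ⊔ Ideal.span (Set.range fun j => linForm (a j))
            ≤ RingHom.ker (eval (fun i => (0 : ℂ) * y i)) := by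
          refine sup_le (fun p hp => RingHom.mem_ker.2
            (Pool.Agent.TH144.MB.cone D.homogeneous hy 0 p hp)) ?_
          rw [Ideal.span_le]
          rintro _ ⟨j, rfl⟩
          refine RingHom.mem_ker.2 ?_
          simp [linForm]
        have h3 := RingHom.mem_ker.1 (h2 h1)
        rw [map_one] at h3
        exact one_ne_zero h3
      · refine ⟨(κ + n + 1).toNat, ?_, Int.toNat_of_nonneg h0⟩
        refine Pool.Agent.TH144.MB.topBound_cm D.homogeneous (List.ofFn a)
          (reg_ofFn (n + 1) a D.I ha) ?_
        intro t ht p hp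
        refine le_ext_ofFn (n + 1) a D.I (hb t ?_ p hp)
        omega
  have cut : ∀ r : ℕ, Pool.Agent.TH144.MB.TopBound D.I r → (r : ℤ) = κ + n + 1 →
      CutOut D.I b := by
    intro r hr hrκ
    rcases hcut with h | h
    · exact h
    · exact Pool.Agent.Run7.h971.AQ.cut_of_topBound D.homogeneous hr (by omega)
  refine ⟨?_, ?_, ?_⟩
  · intro y hy0 hy
    obtain ⟨r, hr, hre⟩ := key y hy
    obtain ⟨F, hF, hFχ, hFy⟩ := Pool.Agent.Run7.h971.AQ.core D.ρ D.homogeneous
      (fun g p hp => D.stable g p hp) D.free hr (by omega) χ hχ hy0 hy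
    exact ⟨F, ⟨hF, hFχ⟩, hFy⟩
  · intro y z hy0 hz0 hy hz hyz
    obtain ⟨r, hr, hre⟩ := key y hy
    obtain ⟨F, hF, hFy, hFz⟩ := Pool.Agent.Run7.h971.AQ.points' D.ρ D.homogeneous
      (fun g p hp => D.stable g p hp) D.free hr (cut r hr hre) (by omega) (by omega) χ hχ
      hy0 hy hz0 hz hyz
    exact ⟨F, hF, hFy, hFz⟩
  · intro y u hy0 hy _ hu
    obtain ⟨r, hr, hre⟩ := key y hy
    obtain ⟨F, hF, hFy, hFu⟩ := Pool.Agent.Run7.h971.AQ.tangents' D.ρ D.homogeneous
      (fun g p hp => D.stable g p hp) D.free hr (cut r hr hre) (by omega) (by omega) χ hχ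
      hy0 hy hu
    exact ⟨F, hF, hFy, hFu⟩

end Pool.Agent.Results.MP_e09b14_ag.AbelianQuotients
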