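import Pool.Agent.Run7.h30.MF.Defs

/-!
# Fujita's very ampleness conjecture for abelian covers with several degrees

Let `T` be a smooth projective variety and `H_1, …, H_q` globally generated line bundles on `T` which
together embed `T` in a product of projective spaces. We consider the smooth abelian covers
`π : X → T` branched along divisors `D_i` of the classes `∑ δ_{ik} H_k`, with normal crossings, whose
building data are combinations of the `H_k`, as quotients of the cone `z_i ^ e_i = F_i(x)` over `T` by
a group `𝓗 ⊆ (ℂˣ)^q × (ℂˣ)^r` acting freely; see the file `Pool.Agent.Run7.h30.MF.Defs`, which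
contains the definitions. Each `H_k` occurs in all branch divisors or in none. If all occur in all
(for instance if `T` is a product of projective spaces and the `D_i` are ample), then any `n = dim T`
of the `D_i` meet; in general `n` is the dimension of the image of `T` under the `H_k` which occur,
and at most `n` of the `D_i` pass through a point.

The result. Let `K_T = ∑ κ_k H_k`, `κ_k ≥ -n` for the `H_k` which occur in the `D_i`, and let
`A_1, …, A_m` be line bundles `O(l, u)` all of whose degrees are not negative. If for each `k` at least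
`1 - κ_k` of the `A_j` have a positive degree `k`, then `K_X + A_1 + … + A_m` is very ample: its
sections have no base point and separate points and tangent vectors.

* If `T = P^(n_1) × … × P^(n_q)`, `q ≥ 2`, `n = n_1 + … + n_q`, and the `D_i` are ample, then
  `κ_k = -(n_k + 1) ≥ -n`. So `K_X + m A` is very ample for all ample `A = O(l, u)` and all
  `m ≥ max n_k + 2`, in particular for `m ≥ n + 1`; and `K_X + A_1 + … + A_m + B` is very ample for
  different ample `A_j` and nef `B`.
* If `T` is any smooth variety of dimension `n` and `H_1` is very ample, `(T, H_1) ≠ (P^n, O(1))`, then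
  `Ω = K_T + n H_1` is globally generated (Sommese and Van de Ven). Take `Ω` as a further line bundle
  which does not occur in the `D_i`: then `κ_1 = -n`, the coefficient of `Ω` in `K_T` is `1` and the
  other `κ_k` are `0`. So `K_X + A_1 + … + A_m + B` is very ample for `m ≥ n + 1`.

The starting result `MP_e09b14_ag.AbelianCovers` is the case where all `D_i` and all building data are
multiples of ONE line bundle (`q = 1`, apart from `Ω`), `A_1 = … = A_m` and `B = 0`.

The proof uses the counting lemmas of the starting library `K3h47.FU`. A section is a monomial in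
the `z_i` times a product of linear forms in the `x_i`, `L_k` of them of the colour `k`. The new
point is that one monomial, not depending on `k`, is good for all the degrees, whose common
denominators may be different: the greedy choice of the exponents of the monomial can be made
independent of the denominator (`exists_list'`, `Near`, `genM`).
-/

set_option autoImplicit false

namespace Pool.Agent.Results.MP_e09b14_ag.BranchedCoversOfProducts

open MvPolynomial Pool.Agent.Run7.h30.MF Pool.Agent.K3h47.FU

variable {N q c r n : ℕ}

/-- The derivative of `Φ` at `(x, z)` in the direction `(u, v)`. -/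
noncomputable def derivative (x u : Fin N → ℂ) (z v : Fin r → ℂ)
    (Φ : MvPolynomial (Fin N ⊕ Fin r) ℂ) : ℂ :=
  ∑ i, value x z (pderiv (Sum.inl i) Φ) * u i + ∑ i, value x z (pderiv (Sum.inr i) Φ) * v i

/-- `(u, v)` is a tangent vector to the cone over `X` at its point `(x, z)`. -/
def Tangent (D : Cover N q c r n) (x u : Fin N → ℂ) (z v : Fin r → ℂ) : Prop :=
  (∀ j, ∑ i, eval x (pderiv i (D.G j)) * u i = 0) ∧
    ∀ i, D.e i * z i ^ (D.e i - 1) * v i = ∑ k, eval x (pderiv k (D.F i)) * u k

/-- The sections of `O(ρ)` have no base point on `X`, and they separate points and tangent vectors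
of `X`. (Two points of the cone give the same point of `X` if they are conjugate under `𝓗`; a
tangent vector of the cone gives zero on `X` if it is tangent to the orbit, that is, a combination
with coefficients `σ_k` of the vectors `(x_i : color i = k; (δ_{ik} / e_i) z_i)`.) -/
def VeryAmple (D : Cover N q c r n) (ρ : (Fin q → ℤ) × (Fin r → ℤ)) : Prop :=
  (∀ x z, OnCone D.color D.G D.F D.e x z → ∃ Φ, D.IsSection ρ Φ ∧ value x z Φ ≠ 0) ∧
  (∀ x z x' z', OnCone D.color D.G D.F D.e x z → OnCone D.color D.G D.F D.e x' z' →
    (¬ ∃ (s : Fin q → ℂˣ) (t : Fin r → ℂˣ), D.InGroup s t ∧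
      (∀ i, x' i = (s (D.color i) : ℂ) * x i) ∧ ∀ i, z' i = (t i : ℂ) * z i) →
    ∃ Φ, D.IsSection ρ Φ ∧ value x z Φ = 0 ∧ value x' z' Φ ≠ 0) ∧
  (∀ x z u v, OnCone D.color D.G D.F D.e x z → Tangent D x u z v →
    (¬ ∃ σ : Fin q → ℂ, (∀ i, u i = σ (D.color i) * x i) ∧
      ∀ i, v i = (∑ k, σ k * (D.δ i k / D.e i)) * z i) →
    ∃ Φ, D.IsSection ρ Φ ∧ value x z Φ = 0 ∧ derivative x u z v Φ ≠ 0)

theorem derivative_eq (x u : Fin N → ℂ) (z v : Fin r → ℂ) (Φ : MvPolynomial (Fin N ⊕ Fin r) ℂ) :
    derivative x u z v Φ = dd (Sum.elim x z) (Sum.elim u v) Φ := by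
  rw [dd, Fintype.sum_sum_type]
  rfl

/-- **Fujita's very ampleness conjecture for branched abelian covers with several degrees.** -/
theorem result (N q c r n : ℕ) (D : Cover N q c r n) (κ : Fin q → ℤ)
    (hκ : ∀ k, (∀ i, 0 < D.δ i k) → -(n : ℤ) ≤ κ k) (m : ℕ)
    (A : Fin m → (Fin q → ℤ) × (Fin r → ℤ)) (hA : ∀ j k, 0 ≤ degree D.δ D.e (A j) k)
    (hm : ∀ k, 1 - κ k ≤ D.number A k) : VeryAmple D (D.adjoint κ A) := by
  have h := D.mdat
  have hβ : Big D.δ D.e n (D.adjoint κ A) := by
    have h1 := big D κ A hA 0 le_rfl zero_le_one (fun k hk => by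
      have := hκ k hk
      omega) (fun k => by
      have := hm k
      omega)
    have h2 : (((fun k => (D.adjoint κ A).1 k + 0), (D.adjoint κ A).2) :
        (Fin q → ℤ) × (Fin r → ℤ)) = D.adjoint κ A := by
      refine Prod.ext (funext fun k => ?_) rfl
      exact add_zero _
    rwa [h2] at h1
  refine ⟨?_, ?_, ?_⟩
  · rintro x z hxz
    exact bpfM (col := D.color) h hβ x hxz.1.1 z (D.few x z hxz)
  · rintro x z x' z' hxz hxz' hne
    exact ptsM (col := D.color) h hβ x x' hxz.1.1 hxz'.1.1 z z' D.F D.homogeneous hxz.2 hxz'.2
      (D.few x' z' hxz') hne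
  · rintro x z u v hxz huv hne
    simp only [derivative_eq]
    exact tanM (col := D.color) h hβ x u hxz.1.1 z v (D.few x z hxz) D.F D.homogeneous
      hxz.2 huv.2 hne

end Pool.Agent.Results.MP_e09b14_ag.BranchedCoversOfProducts
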