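import Pool.Agent.Run7.h72.WF.Final
import Pool.Agent.Run7.h72.WF.Main2

/-!
# Fujita's very ampleness conjecture for weighted complete intersections of any codimension with
pairwise coprime weights

Let `X = V(f_1, ..., f_c)` be a complete intersection of degrees `d_1, ..., d_c` and dimension `n`
in the weighted projective space `P(a_0, ..., a_{n+c})` over `ℂ`, with pairwise coprime weights, on
which `O(1)` is invertible: for each variable `x_i` of weight `a_i > 1` a pure power of `x_i` appears
in an equation `f_{J(i)}` (`hpure`). Let `excess d J j = d_j - 1 - ∑_{J(i) = j} (a_i - 1)`; this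
number is never negative, and `K_X = O(∑_j excess_j - (n + 1))`. Suppose that

* (`hbig`) if the equation `f_{J(i)}` is used for two or more variables of weight `> 1`, then
  `2 a_i a_l ≤ a_i + a_l + excess_{J(i)} + excess_{J(l)}` for all the other variables `x_l` of weight
  `> 1` (the last term is left out if `J(l) = J(i)`).

This is no condition if the equations `f_{J(i)}` are distinct, and if they are not, it holds as soon
as the degrees of the equations which are used for several variables are large. Then for `A = O(k)`,
`k ≥ 1`, and `m ≥ n + 2` the bundle `K_X + m A = O(e)` is very ample: its sections given by the forms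
of weighted degree `e` have no base point, separate points and separate tangent vectors. The
codimension is arbitrary; `X` need not be smooth, nor even a complete intersection.

The proof. A pair of points, or a tangent vector, which is not separated is a point `y` of `X` with
values in `ℂ` or `ℂ[ε]` such that all monomials of degree `e` have the same value at `y` and at
`v`. If a coordinate of `v` of weight one is not zero, this gives `y = t v` at once. If not, let
`S` be the set of the nonzero coordinates of `v`. If some `i ∈ S` is as in `hbig`, there are two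
coordinates of `v` such that the monomials of degree `e` in them determine `t`. If not, then for
`i ∈ S` the equation `f_{J(i)}(v) = 0` contains besides the pure power `x_i^{N_i}` a second
monomial in the variables of `S`; let `T ⊆ S` be minimal such that these monomials, for `i ∈ T`, are
monomials in the variables of `T`, and let `i_0 ∈ T` be the element with the largest degree
`d_{J(i_0)}`. Firing chips along the relations between the weights given by these monomials, one
shows that each vector of integers with support in `T` is congruent, modulo the relations of the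
`i ≠ i_0`, to one with `0 ≤ x_i < N_i` for `i ≠ i_0`. So all numbers
`> ∑_{i ∈ T - i_0} (N_i - 1) a_i - a_{i_0}` are in the semigroup of the weights of `T`. As
`e ≥ ∑_{i ∈ T} (N_i - 1) a_i + 1` (here the equations `f_{J(i)}`, `i ∈ T`, have to be distinct), the
relations are differences of exponents of monomials of degree `e`, and then all exponent vectors of
degree zero are such differences. This gives `y_i = t^{a_i} v_i` for `i ∈ T`, and then for all `i`.
-/

set_option autoImplicit false

namespace Pool.Agent.Results.MP_e09b14_ag.CoprimeAnyCodimension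

open MvPolynomial Pool.Agent.Run7.h72.WF

/-- `K_X + m A` is very ample for `A = O(k)`, `k ≥ 1`, `m ≥ n + 2`, if `X` is a weighted complete
intersection of dimension `n` with pairwise coprime weights, pure powers of the variables of weight
`> 1` appear in the equations `f (J i)`, and the degrees of those equations which are used for two
or more variables are large (`hbig`). -/
theorem result (n c : ℕ) (a : Fin (n + c + 1) → ℕ) (ha : ∀ i, 0 < a i)
    (hcop : ∀ i i', i ≠ i' → Nat.Coprime (a i) (a i')) (d : Fin c → ℕ) (hd : ∀ j, 0 < d j)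
    (f : Fin c → MvPolynomial (Fin (n + c + 1)) ℂ) (hf : ∀ j, IsWeightedHomogeneous a (f j) (d j))
    (J : {i // 1 < a i} → Fin c)
    (hpure : ∀ i, eval (Pi.single i.1 1 : Fin (n + c + 1) → ℂ) (f (J i)) ≠ 0)
    (hbig : ∀ i i' l : {i // 1 < a i}, i' ≠ i → J i' = J i → l ≠ i →
      2 * ((a i.1 : ℤ) * a l.1) ≤ a i.1 + a l.1 + excess d J (J i) +
        if J l = J i then 0 else excess d J (J l))
    (k m : ℕ) (hk : 1 ≤ k) (hm : n + 2 ≤ m) :
    ∃ e : ℕ, (e : ℤ) = ∑ j, (d j : ℤ) - ∑ i, (a i : ℤ) + m * k ∧
    -- no base points
    (∀ v : Fin (n + c + 1) → ℂ, v ≠ 0 → (∀ j, eval v (f j) = 0) →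
      ∃ s : MvPolynomial (Fin (n + c + 1)) ℂ, IsWeightedHomogeneous a s e ∧ eval v s ≠ 0) ∧
    -- points are separated
    (∀ v w : Fin (n + c + 1) → ℂ, v ≠ 0 → w ≠ 0 → (∀ j, eval v (f j) = 0) →
      (∀ j, eval w (f j) = 0) → (¬ ∃ t : ℂ, t ≠ 0 ∧ ∀ i, w i = t ^ a i * v i) →
      ∃ s : MvPolynomial (Fin (n + c + 1)) ℂ, IsWeightedHomogeneous a s e ∧
        eval v s = 0 ∧ eval w s ≠ 0) ∧
    -- tangent vectors are separated
    (∀ v u : Fin (n + c + 1) → ℂ, v ≠ 0 → (∀ j, eval v (f j) = 0) →
      (∀ j, ∑ i, eval v (pderiv i (f j)) * u i = 0) → (¬ ∃ τ : ℂ, ∀ i, u i = τ * (a i * v i)) →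
      ∃ s : MvPolynomial (Fin (n + c + 1)) ℂ, IsWeightedHomogeneous a s e ∧
        eval v s = 0 ∧ ∑ i, eval v (pderiv i s) * u i ≠ 0) := by
  classical
  have hmk : n + 2 ≤ m * k := hm.trans (Nat.le_mul_of_pos_right _ hk)
  obtain ⟨e, he⟩ : ∃ e : ℕ, e + ∑ i, a i = ∑ j, d j + m * k := by
    have h1 : ∑ i, a i ≤ ∑ j, d j + m * k := by
      by_contra hcon
      have h2 := e_pos2 (e := 0) ha hcop hd hf J hpure (by omega)
      omega
    exact ⟨∑ j, d j + m * k - ∑ i, a i, by omega⟩
  have he' : ∑ j, d j + (n + c + 1) + 1 ≤ e + ∑ i, a i + c := by omega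
  have hmain : ∀ (B : Type) [CommRing B] [Algebra ℂ B] (v : Fin (n + c + 1) → ℂ), v ≠ 0 →
      (∀ j, eval v (f j) = 0) → ∀ y : Fin (n + c + 1) → B,
      (∀ q : Fin (n + c + 1) → ℕ, ∑ i, q i * a i = e →
        ∏ i, y i ^ q i = ∏ i, algebraMap ℂ B (v i) ^ q i) →
      (∀ j, aeval y (f j) = 0) →
      ∃ t : Bˣ, ∀ i, y i = (t : B) ^ a i * algebraMap ℂ B (v i) :=
    fun B _ _ v hv hfv y hmono hfy =>
      main2 ha hcop hd hf J hpure hbig he' hv hfv hmono hfy
  have hpos : 0 < e := e_pos2 ha hcop hd hf J hpure he'
  have hb := base ha hf hmain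
  refine ⟨e, ?_, hb, ?_, ?_⟩
  · have h1 : ((e + ∑ i, a i : ℕ) : ℤ) = ((∑ j, d j + m * k : ℕ) : ℤ) := by exact_mod_cast he
    push_cast at h1
    linarith
  · intro v w hv hw hfv hfw hne
    by_contra hcon
    push Not at hcon
    exact hne (points hf hpos hmain hb v w hv hw hfv hfw hcon)
  · intro v u hv hfv hfu hne
    by_contra hcon
    push Not at hcon
    exact hne (tangents ha hf hpos hmain hb v u hv hfv hfu hcon)

end Pool.Agent.Results.MP_e09b14_ag.CoprimeAnyCodimension
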